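import Pool.Agent.W955.LT.Stm

/-!
# Programs with tapes, level by level programs, final objects
-/

set_option autoImplicit false

namespace Pool.Agent.W932.LT

open Pool.Agent.W955.LT
open Pool.Agent.W955.LT.Prog

/-! ### Binary digits -/

lemma bval_lt (l : List Bool) : bval l < 2 ^ l.length := by
  induction l with
  | nil => simp [bval]
  | cons b l ih =>
    simp only [bval, List.length_cons, pow_succ]
    cases b <;> simp <;> omega

theorem run_main : S_run := by
  intro α P p B t
  induction p generalizing t with
  | ret a => intro h; exact h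
  | draw w k ih =>
    intro h
    simp only [run]
    refine ih _ _ (h _ ?_)
    have h1 : bval (t.take B) < 2 ^ B := by
      refine (bval_lt _).trans_le (Nat.pow_le_pow_right (by norm_num) ?_)
      rw [List.length_take]; exact min_le_left _ _
    rw [Nat.div_lt_iff_lt_mul (by positivity)]
    have := Nat.mul_lt_mul_of_pos_right h1 (Nat.succ_pos w)
    linarith

lemma sum_two_mul (G : ℕ → ℝ) (m : ℕ) :
    ∑ v ∈ Finset.range (2 * m), G v = ∑ u ∈ Finset.range m, (G (2 * u) + G (1 + 2 * u)) := by
  induction m with
  | zero => simp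
  | succ m ih =>
    have : 2 * (m + 1) = 2 * m + 1 + 1 := by ring
    rw [this, Finset.sum_range_succ, Finset.sum_range_succ, ih, Finset.sum_range_succ,
      add_comm 1 (2 * m)]
    ring

lemma sum_bval (B : ℕ) (G : ℕ → ℝ) :
    ∑ s : Fin B → Bool, G (bval (List.ofFn s)) = ∑ v ∈ Finset.range (2 ^ B), G v := by
  induction B generalizing G with
  | zero => simp [bval]
  | succ B ih =>
    rw [← (Fin.consEquiv fun _ : Fin (B + 1) => Bool).sum_comp]
    rw [Fintype.sum_prod_type]
    have e : ∀ (b : Bool) (s : Fin B → Bool),
        List.ofFn ((Fin.consEquiv fun _ : Fin (B + 1) => Bool) (b, s)) = b :: List.ofFn s := by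
      intro b s
      show List.ofFn (Fin.cons b s : Fin (B + 1) → Bool) = _
      simp [List.ofFn_succ]
    simp only [e, bval, Fintype.sum_bool, if_true, Bool.false_eq_true, if_false]
    rw [ih (fun v => G (1 + 2 * v)), ih (fun v => G (0 + 2 * v)), pow_succ, mul_comm (2 ^ B) 2,
      sum_two_mul, ← Finset.sum_add_distrib]
    refine Finset.sum_congr rfl fun u _ => ?_
    rw [zero_add, add_comm]

lemma count_fiber (N w u : ℕ) (hN : 0 < N) (hu : u < w + 1) :
    |((((Finset.range N).filter fun v => v * (w + 1) / N = u).card : ℝ)) / N - 1 / (w + 1)| ≤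
      1 / N := by
  set a : ℕ → ℕ := fun i => (i * N + w) / (w + 1) with ha
  have hmem : ∀ i v, a i ≤ v ↔ i * N ≤ v * (w + 1) := by
    intro i v
    rw [ha]
    simp only
    rw [Nat.div_le_iff_le_mul_add_pred (by omega)]
    rw [Nat.add_sub_cancel, mul_comm (w + 1) v]
    exact Nat.add_le_add_iff_right
  have hset : (Finset.range N).filter (fun v => v * (w + 1) / N = u) =
      Finset.Ico (a u) (a (u + 1)) := by
    ext v
    rw [Finset.mem_filter, Finset.mem_range, Finset.mem_Ico, ← not_le, hmem, ← not_le, hmem,
      Nat.div_eq_iff hN]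
    constructor
    · rintro ⟨h1, h2, h3⟩
      refine ⟨by linarith, ?_⟩
      rw [not_le]
      have : (u + 1) * N = u * N + N := by ring
      rw [this]
      have h4 : u * N = N * u := mul_comm _ _
      omega
    · rintro ⟨h1, h2⟩
      rw [not_le] at h2
      have h5 : (u + 1) * N = u * N + N := by ring
      rw [h5] at h2
      refine ⟨?_, by linarith, by omega⟩
      rw [not_le]
      by_contra h
      push Not at h
      have h3 : (u + 1) * N ≤ (w + 1) * N := Nat.mul_le_mul_right N (by omega)
      have h4 : N * (w + 1) ≤ v * (w + 1) := Nat.mul_le_mul_right _ h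
      nlinarith
  rw [hset, Nat.card_Ico]
  have hreal : ∀ i : ℕ, (i : ℝ) * N / (w + 1) ≤ a i ∧ (a i : ℝ) ≤ (i : ℝ) * N / (w + 1) + w / (w + 1) := by
    intro i
    have h1 : i * N ≤ a i * (w + 1) := (hmem i (a i)).1 le_rfl
    have h2 : a i * (w + 1) ≤ i * N + w := Nat.div_mul_le_self _ _
    have h1' : (i : ℝ) * N ≤ a i * (w + 1) := by exact_mod_cast h1
    have h2' : (a i : ℝ) * (w + 1) ≤ i * N + w := by exact_mod_cast h2
    have hw : (0 : ℝ) < w + 1 := by positivity
    constructor
    · rw [div_le_iff₀ hw]; exact h1'
    · rw [← add_div, le_div_iff₀ hw]; exact h2'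
  have hle : a u ≤ a (u + 1) := by
    rw [ha]
    exact Nat.div_le_div_right (by nlinarith)
  rw [Nat.cast_sub hle]
  obtain ⟨p1, p2⟩ := hreal u
  obtain ⟨q1, q2⟩ := hreal (u + 1)
  push_cast at q1 q2
  have hw : (0 : ℝ) < w + 1 := by positivity
  have hw1 : (w : ℝ) / (w + 1) ≤ 1 := by rw [div_le_one hw]; linarith
  have hNr : (0 : ℝ) < N := by exact_mod_cast hN
  have e1 : ((u : ℝ) + 1) * N / (w + 1) = (u : ℝ) * N / (w + 1) + N / (w + 1) := by ring
  rw [e1] at q1 q2
  have e2 : (((a (u + 1) : ℝ) - a u) / N - 1 / (w + 1)) =
      ((a (u + 1) : ℝ) - a u - N / (w + 1)) / N := by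
    field_simp
  rw [e2, abs_div, abs_of_pos hNr]
  refine div_le_div_of_nonneg_right ?_ hNr.le
  rw [abs_le]
  constructor <;> linarith

lemma average_close (N w : ℕ) (hN : 0 < N) (g : ℕ → ℝ) (hg : ∀ u, 0 ≤ g u ∧ g u ≤ 1) :
    |(∑ v ∈ Finset.range N, g (v * (w + 1) / N)) / N -
      (∑ u ∈ Finset.range (w + 1), g u) / (w + 1)| ≤ (w + 1) / N := by
  have h1 : ∑ v ∈ Finset.range N, g (v * (w + 1) / N) =
      ∑ u ∈ Finset.range (w + 1),
        (((Finset.range N).filter fun v => v * (w + 1) / N = u).card : ℝ) * g u := by
    rw [← Finset.sum_fiberwise_of_maps_to (s := Finset.range N) (t := Finset.range (w + 1))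
      (g := fun v => v * (w + 1) / N)]
    · refine Finset.sum_congr rfl fun u _ => ?_
      rw [Finset.sum_congr rfl fun v hv => by rw [(Finset.mem_filter.1 hv).2]]
      rw [Finset.sum_const, nsmul_eq_mul]
    · intro v hv
      rw [Finset.mem_range] at hv ⊢
      rw [Nat.div_lt_iff_lt_mul hN]
      have := Nat.mul_lt_mul_of_pos_right hv (Nat.succ_pos w)
      linarith
  rw [h1, Finset.sum_div, Finset.sum_div, ← Finset.sum_sub_distrib]
  refine (Finset.abs_sum_le_sum_abs _ _).trans ?_
  have h2 : ∀ u ∈ Finset.range (w + 1),
      |(((Finset.range N).filter fun v => v * (w + 1) / N = u).card : ℝ) * g u / N -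
        g u / (w + 1)| ≤ 1 / N := by
    intro u hu
    have h3 := count_fiber N w u hN (Finset.mem_range.1 hu)
    have e : (((Finset.range N).filter fun v => v * (w + 1) / N = u).card : ℝ) * g u / N -
        g u / (w + 1) = ((((Finset.range N).filter fun v => v * (w + 1) / N = u).card : ℝ) / N -
          1 / (w + 1)) * g u := by ring
    rw [e, abs_mul, abs_of_nonneg (hg u).1]
    have h4 : (0 : ℝ) ≤ 1 / N := by positivity
    calc _ ≤ 1 / (N : ℝ) * 1 := mul_le_mul h3 (hg u).2 (hg u).1 h4
      _ = 1 / N := mul_one _
  refine (Finset.sum_le_card_nsmul _ _ _ h2).trans ?_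
  rw [Finset.card_range, nsmul_eq_mul]
  push_cast
  rw [mul_one_div]

lemma sum_append (m n : ℕ) (F : List Bool → ℝ) :
    ∑ t : Fin (m + n) → Bool, F (List.ofFn t) =
      ∑ s : Fin m → Bool, ∑ t : Fin n → Bool, F (List.ofFn s ++ List.ofFn t) := by
  rw [← (Fin.appendEquiv m n).sum_comp, Fintype.sum_prod_type]
  refine Finset.sum_congr rfl fun s _ => Finset.sum_congr rfl fun t _ => ?_
  have e : (Fin.appendEquiv m n) (s, t) = Fin.append s t := rfl
  rw [e, List.ofFn_fin_append]

theorem tape_main : S_tape := by
  intro α p W T B M f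
  induction p generalizing T M with
  | ret a =>
    intro _ _ _
    simp only [run, E, Finset.sum_const, Finset.card_univ, Fintype.card_fun, Fintype.card_bool,
      Fintype.card_fin, nsmul_eq_mul]
    push_cast
    rw [mul_div_cancel_left₀ _ (by positivity), sub_self, abs_zero]
    positivity
  | draw w k ih =>
    intro hbd hM hf
    cases T with
    | zero => exact absurd hbd (by simp [Bd])
    | succ T =>
      obtain ⟨hw, hk⟩ := hbd
      obtain ⟨M', rfl⟩ : ∃ M', M = B + M' := ⟨M - B, by
        have : (T + 1) * B = T * B + B := by ring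
        omega⟩
      have hM' : T * B ≤ M' := by
        have : (T + 1) * B = T * B + B := by ring
        omega
      let g : ℕ → ℝ := fun u =>
        (∑ t : Fin M' → Bool, f ((k u).run B (List.ofFn t)).1) / 2 ^ M'
      have hg : ∀ u, 0 ≤ g u ∧ g u ≤ 1 := by
        intro u
        constructor
        · exact div_nonneg (Finset.sum_nonneg fun t _ => (hf _).1) (by positivity)
        · rw [div_le_one (by positivity)]
          refine (Finset.sum_le_card_nsmul _ _ 1 fun t _ => (hf _).2).trans ?_
          rw [Finset.card_univ, Fintype.card_fun, Fintype.card_bool, Fintype.card_fin,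
            nsmul_eq_mul]
          push_cast
          rw [mul_one]
      have hsum : (∑ t : Fin (B + M') → Bool, f (((draw w k).run B (List.ofFn t))).1) /
          2 ^ (B + M') = (∑ v ∈ Finset.range (2 ^ B), g (v * (w + 1) / 2 ^ B)) / 2 ^ B := by
        rw [sum_append B M' (fun t => f (((draw w k).run B t)).1)]
        have e1 : ∀ s : Fin B → Bool, ∀ t : Fin M' → Bool,
            (draw w k).run B (List.ofFn s ++ List.ofFn t) =
              (k (bval (List.ofFn s) * (w + 1) / 2 ^ B)).run B (List.ofFn t) := by
          intro s t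
          simp only [run]
          rw [List.take_left' (by simp), List.drop_left' (by simp)]
        simp only [e1]
        rw [← sum_bval B (fun v => g (v * (w + 1) / 2 ^ B)), pow_add, Finset.sum_div,
          Finset.sum_div]
        refine Finset.sum_congr rfl fun s _ => ?_
        simp only [g]
        rw [div_div, mul_comm ((2 : ℝ) ^ M')]
      rw [hsum]
      have hclose := average_close (2 ^ B) w (by positivity) g hg
      push_cast at hclose
      have hE : (draw w k).E f = (∑ u ∈ Finset.range (w + 1), (k u).E f) / (w + 1) := rfl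
      rw [hE]
      have hIH : |(∑ u ∈ Finset.range (w + 1), g u) / (w + 1) -
          (∑ u ∈ Finset.range (w + 1), (k u).E f) / (w + 1)| ≤ T * W / 2 ^ B := by
        rw [← sub_div, ← Finset.sum_sub_distrib, abs_div, abs_of_pos (by positivity : (0 : ℝ) < w + 1),
          div_le_iff₀ (by positivity)]
        refine (Finset.abs_sum_le_sum_abs _ _).trans ?_
        refine (Finset.sum_le_card_nsmul _ _ ((T : ℝ) * W / 2 ^ B) fun u hu => ?_).trans ?_
        · exact ih u T M' (hk u (Finset.mem_range.1 hu)) hM' hf
        · rw [Finset.card_range, nsmul_eq_mul]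
          push_cast
          rw [mul_comm]
      have htri := abs_sub_le ((∑ v ∈ Finset.range (2 ^ B), g (v * (w + 1) / 2 ^ B)) / 2 ^ B)
        ((∑ u ∈ Finset.range (w + 1), g u) / (w + 1))
        ((∑ u ∈ Finset.range (w + 1), (k u).E f) / (w + 1))
      have hW : ((w : ℝ) + 1) / 2 ^ B ≤ W / 2 ^ B := by
        refine div_le_div_of_nonneg_right ?_ (by positivity)
        exact_mod_cast hw
      have hfin : ((T : ℝ) + 1) * W / 2 ^ B = W / 2 ^ B + T * W / 2 ^ B := by ring
      push_cast
      rw [hfin]
      linarith

/-! ### Expectations -/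

lemma E_bind {α β : Type} (p : Prog α) (g : α → Prog β) (f : β → ℝ) :
    (p.bind g).E f = p.E fun a => (g a).E f := by
  induction p with
  | ret a => rfl
  | draw w k ih =>
    simp only [Prog.bind, E]
    simp only [ih]

lemma E_lin {α : Type} (p : Prog α) (s : Finset ℕ) (c : ℝ) (F : ℕ → α → ℝ) :
    p.E (fun a => (∑ u ∈ s, F u a) / c) = (∑ u ∈ s, p.E (F u)) / c := by
  induction p with
  | ret a => rfl
  | draw w k ih =>
    simp only [E]
    simp only [ih]
    rw [← Finset.sum_div, Finset.sum_comm, div_right_comm, Finset.sum_div]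

lemma E_comm {α β : Type} (p : Prog α) (q : Prog β) (F : α → β → ℝ) :
    p.E (fun a => q.E (fun b => F a b)) = q.E (fun b => p.E (fun a => F a b)) := by
  induction p with
  | ret a => rfl
  | draw w k ih =>
    simp only [E]
    rw [E_lin q (Finset.range (w + 1)) (w + 1) fun u b => (k u).E fun a => F a b]
    simp only [ih]

/-- run a list of programs and collect the results -/
def seqP {α : Type} : List (Prog α) → Prog (List α)
  | [] => ret []
  | p :: ps => p.bind fun a => (seqP ps).bind fun l => ret (a :: l)

section sys

variable {O : Type} (S : Sys O)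

lemma poolL_E (r : ℕ) (xs : List (Option O)) (F : List (Pl O) → ℝ) :
    (S.poolL r xs).E F = (seqP (xs.map (S.pool r))).E F := by
  induction r generalizing xs F with
  | zero =>
    have h : ∀ F : List (Pl O) → ℝ, (seqP (xs.map (S.pool 0))).E F = F (xs.map fun _ => S.base) := by
      intro F
      induction xs generalizing F with
      | nil => rfl
      | cons x xs ih =>
        simp only [List.map_cons, seqP, Sys.pool]
        rw [E_bind]
        simp only [E]
        rw [E_bind]
        simp only [E]
        exact ih fun l => F (S.base :: l)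
    rw [h]
    rfl
  | succ r ih =>
    simp only [Sys.poolL]
    rw [E_bind, ih]
    induction xs generalizing F with
    | nil => rfl
    | cons x xs ihx =>
      have e : (S.kdL (x :: xs)).map (S.pool r) =
          S.pool r (S.kd x).1 :: S.pool r (S.kd x).2 :: (S.kdL xs).map (S.pool r) := by
        simp [Sys.kdL]
      rw [e]
      simp only [seqP, List.map_cons, Sys.pool, E_bind, E, Sys.combL]
      congr 1
      funext p1
      congr 1
      funext p2
      rw [E_comm]
      congr 1
      funext p
      have h1 := ihx fun l => F (p :: l)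
      exact h1

lemma stepL_E (R : ℕ) (x : O) (f : O → ℝ) : (S.stepL R x).E f = (S.step R x).E f := by
  unfold Sys.stepL Sys.step
  rw [E_bind, poolL_E]
  simp only [List.map_cons, List.map_nil, seqP, E_bind, E]

theorem chain_E (R J : ℕ) (x : O) (f : O → ℝ) : (S.chainL R J x).E f = (S.chain R J x).E f := by
  induction J generalizing x with
  | zero => rfl
  | succ J ih =>
    simp only [Sys.chainL, Sys.chain]
    rw [E_bind, E_bind, stepL_E]
    simp only [ih]

end sys

theorem lvl_main : S_lvl := fun _ S R J x f => chain_E S R J x f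

/-! ### Possible results -/

lemma All_bind {α β : Type} {P : α → Prop} {Q : β → Prop} {p : Prog α} {g : α → Prog β}
    (hp : p.All P) (hg : ∀ a, P a → (g a).All Q) : (p.bind g).All Q := by
  induction p with
  | ret a => exact hg a hp
  | draw w k ih => exact fun u hu => ih u (hp u hu)

lemma All_true {α : Type} (p : Prog α) : p.All fun _ => True := by
  induction p with
  | ret a => trivial
  | draw w k ih => exact fun u _ => ih u

lemma sel_mem {O : Type} (l : List (ℕ × O)) (u : ℕ) (z : O) (h : Sys.sel l u = some z) :
    ∃ w, (w, z) ∈ l := by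
  induction l generalizing u with
  | nil => simp [Sys.sel] at h
  | cons a l ih =>
    obtain ⟨w, y⟩ := a
    simp only [Sys.sel] at h
    split_ifs at h with h1
    · have : y = z := by simpa using h
      subst this
      exact ⟨w, List.mem_cons_self⟩
    · obtain ⟨w', hw'⟩ := ih _ h
      exact ⟨w', List.mem_cons_of_mem _ hw'⟩

lemma pick_all {O : Type} (l : List (ℕ × O)) :
    (Sys.pick l).All fun y => ∀ z, y = some z → ∃ w, (w, z) ∈ l := by
  unfold Sys.pick
  split_ifs with h
  · intro z hz
    simp at hz
  · intro u _ z hz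
    exact sel_mem l u z hz

theorem top_main : S_top := by
  intro O S R J x hpt hx htop
  induction J generalizing x with
  | zero => exact ⟨hx, htop⟩
  | succ J ih =>
    simp only [Sys.chainL]
    refine All_bind (P := fun y => S.size y = S.n ∧ S.top y = true) ?_ fun y hy => ih y hy.1 hy.2
    unfold Sys.stepL
    refine All_bind (All_true _) fun ps _ => ?_
    have hcs : ∀ (p1 p2 : Pl O) (m w : ℕ) (z : O), (w, z) ∈ S.cs p1 p2 m → S.size z = m := by
      intro p1 p2 m w z h
      unfold Sys.cs at h
      rw [List.mem_append] at h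
      rcases h with h | h
      · split_ifs at h with hm
        · rw [List.mem_singleton] at h
          have : z = S.pt := (Prod.mk.inj h).2
          rw [this, hpt, hm]
        · simp at h
      · rw [List.mem_flatMap] at h
        obtain ⟨a, -, h⟩ := h
        rw [List.mem_flatMap] at h
        obtain ⟨b, -, h⟩ := h
        unfold Sys.cxy at h
        split at h
        · rw [List.mem_map] at h
          obtain ⟨c, hc, hc'⟩ := h
          rw [List.mem_filter] at hc
          have : c = z := (Prod.mk.inj hc').2
          subst this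
          simpa using hc.2
        · simp at h
    match ps with
    | [] => exact ⟨hx, htop⟩
    | [_] => exact ⟨hx, htop⟩
    | p1 :: p2 :: _ =>
      refine All_bind (pick_all _) fun y hy => ?_
      show S.size (y.getD x) = S.n ∧ S.top (y.getD x) = true
      cases y with
      | none => exact ⟨hx, htop⟩
      | some z =>
        obtain ⟨w, hw⟩ := hy z rfl
        unfold Sys.ts at hw
        rw [List.mem_filter] at hw
        exact ⟨hcs _ _ _ _ _ hw.1, hw.2⟩

end Pool.Agent.W932.LT
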